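import Pool.Agent.H852R2.TE.Defs
import Pool.Agent.H852R2.TE.S.SFTR
import Pool.Agent.H852R2.TE.S.RTE

/-! TRE: trace bound on the components of the levels `n^s ≤ j ≤ n^{s+δ}` -/

namespace TE852
open RC14 RC852 Finset Filter Equiv

namespace TREaux

/-- the coercion `Alt n → Perm (Fin n)` commutes with `bwd` -/
theorem coe_bwd {n a q m J : ℕ} (x : Fin a → Alt n) (b : Fin q → Alt n)
    (w : Fin J → (Fin (2 * m) → Fin a × Bool) × (Fin q × Bool)) :
    ((bwd (wrd x) b w : Alt n) : Equiv.Perm (Fin n)) = bwd (gx x m) (cb b) w := by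
  have h1 : ((bwd (wrd x) b w : Alt n) : Equiv.Perm (Fin n)) =
      (alternatingGroup (Fin n)).subtype (bwd (wrd x) b w) := rfl
  rw [h1]
  unfold bwd
  rw [map_list_prod, List.map_ofFn]
  congr 1
  congr 1
  funext t
  simp only [Function.comp, blk, sl, gx, cb, Subgroup.subtype_apply]
  split_ifs <;> simp

/-- the inequality of the constants -/
theorem consts (δ : ℝ) (hδ : 0 < δ) : ∀ᶠ n : ℕ in atTop, 2 ≤ n ∧
    (8 / 7 : ℝ) ^ 128 * (n : ℝ) ^ (δ * (256 / 20000)) * (2 * (n : ℝ) ^ (-(δ / 10))) ≤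
      (n : ℝ) ^ (-(δ / 20)) := by
  have h1 : Tendsto (fun n : ℕ => (n : ℝ) ^ (δ * (37 / 1000))) atTop atTop :=
    (tendsto_rpow_atTop (by positivity)).comp tendsto_natCast_atTop_atTop
  filter_upwards [eventually_ge_atTop 2, h1.eventually_ge_atTop ((8 / 7 : ℝ) ^ 128 * 2)]
    with n hn h
  refine ⟨hn, ?_⟩
  have hn0 : (0 : ℝ) < n := by
    have : 0 < n := by omega
    exact_mod_cast this
  have hn1 : (1 : ℝ) ≤ n := by
    have : 1 ≤ n := by omega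
    exact_mod_cast this
  calc (8 / 7 : ℝ) ^ 128 * (n : ℝ) ^ (δ * (256 / 20000)) * (2 * (n : ℝ) ^ (-(δ / 10)))
      = ((8 / 7 : ℝ) ^ 128 * 2) * ((n : ℝ) ^ (δ * (256 / 20000)) * (n : ℝ) ^ (-(δ / 10))) := by
        ring
    _ ≤ (n : ℝ) ^ (δ * (37 / 1000)) *
        ((n : ℝ) ^ (δ * (256 / 20000)) * (n : ℝ) ^ (-(δ / 10))) :=
        mul_le_mul_of_nonneg_right h (by positivity)
    _ = (n : ℝ) ^ (δ * (37 / 1000) + (δ * (256 / 20000) + -(δ / 10))) := by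
        rw [Real.rpow_add hn0, Real.rpow_add hn0]
    _ ≤ (n : ℝ) ^ (-(δ / 20)) := Real.rpow_le_rpow_of_exponent_le hn1 (by linarith)

end TREaux

/-- trace bound on the components of the levels `n^s ≤ j ≤ n^{s+δ}` -/
theorem TRE (δ s : ℝ) (hδ : 0 < δ) (hδ1 : δ ≤ 1 / 16) (hs : 0 ≤ s) (hs1 : s + 3 * δ ≤ 1) :
    ∀ᶠ n : ℕ in atTop, ∀ (a q M d : ℕ) (x : Fin a → Alt n) (b : Fin q → Alt n), 1 ≤ a → 1 ≤ q →
    d ≤ M → NF M d ≤ (n : ℝ) ^ (δ / 20000 * Rr s n) → GoodE δ s (gx (lz x) M) (cb b) →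
    ∀ j, Rr s n ≤ j → j ≤ Rr (s + δ) n →
    ∀ (W : Submodule ℂ (V j n)) (hW : Irr (repA j n) W), W ≤ Lvl j n →
      (8 / 7 : ℝ) ^ (2 * LL (Rr s n) j) *
          rtr (SF (V := W) (res (repA j n) W hW.2.1) x b M d ^ (2 * LL (Rr s n) j)) ≤
        ((n : ℝ) ^ (-(δ / 20))) ^ j * Module.finrank ℂ W := by
  filter_upwards [RTE δ hδ (by linarith), TREaux.consts δ hδ] with n hRT hn
  obtain ⟨hn2, hc⟩ := hn
  intro a q M d x b ha hq hdM hNF hG j hj1 hj2 W hW hWL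
  have hn0 : (0 : ℝ) < n := by
    have : 0 < n := by omega
    exact_mod_cast this
  have hn1 : (1 : ℝ) ≤ n := by
    have : 1 ≤ n := by omega
    exact_mod_cast this
  obtain ⟨r, hr⟩ : ∃ r, r = Rr s n := ⟨_, rfl⟩
  have hr1 : 1 ≤ r := by
    rw [hr]
    exact Nat.le_floor (by rw [Nat.cast_one]; exact Real.one_le_rpow hn1 hs)
  have hjr : r ≤ j := by rw [hr]; exact hj1
  have hj0 : 1 ≤ j := hr1.trans hjr
  have hjn : (j : ℝ) ≤ (n : ℝ) ^ (1 - 2 * δ) := by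
    calc (j : ℝ) ≤ (Rr (s + δ) n : ℕ) := by exact_mod_cast hj2
      _ ≤ (n : ℝ) ^ (s + δ) := Nat.floor_le (by positivity)
      _ ≤ (n : ℝ) ^ (1 - 2 * δ) := Real.rpow_le_rpow_of_exponent_le hn1 (by linarith)
  have hchar := hRT j hj0 hjn W hW.2.1 hWL
  obtain ⟨β, hβ⟩ : ∃ β, β = ((n : ℝ) ^ (-(δ / 10))) ^ j := ⟨_, rfl⟩
  have hβ0 : 0 ≤ β := by rw [hβ]; positivity
  have key := SFTR ha hq (res (repA j n) W hW.2.1) x b M d (2 * LL (Rr s n) j) hdM
    (fun h : Alt n => 2 * FE δ n ≤ nfix (h : Equiv.Perm (Fin n))) β hβ0 (by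
      intro h hh
      rw [hβ]
      exact hchar h (not_le.1 hh).le)
  have hbad : (Nat.card {w : Fin (2 * LL (Rr s n) j) →
        (Fin (2 * M) → Fin (a + a) × Bool) × (Fin q × Bool) //
      2 * FE δ n ≤ nfix ((bwd (wrd (lz x)) b w : Alt n) : Equiv.Perm (Fin n))} : ℝ) /
        (Fintype.card ((Fin (2 * M) → Fin (a + a) × Bool) × (Fin q × Bool)) : ℝ) ^
          (2 * LL (Rr s n) j) ≤ (1 / (n : ℝ)) ^ j := by
    have h2 := hG j hj1 hj2
    simp only [TREaux.coe_bwd]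
    have hpos : (0 : ℝ) <
        (Fintype.card ((Fin (2 * M) → Fin (a + a) × Bool) × (Fin q × Bool)) : ℝ) := by
      have : Nonempty (Fin q) := ⟨⟨0, hq⟩⟩
      have : Nonempty (Fin (a + a)) := ⟨⟨0, by omega⟩⟩
      exact_mod_cast Fintype.card_pos
    rw [div_le_iff₀ (by positivity)]
    exact h2
  -- the number of blocks
  obtain ⟨J, hJ⟩ : ∃ J, J = 2 * LL (Rr s n) j := ⟨_, rfl⟩
  rw [← hJ] at key hbad ⊢
  have hJr : J * r ≤ 128 * j := by
    rw [hJ, ← hr]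
    unfold LL
    have h3 : j / r * r ≤ j := Nat.div_mul_le_self j r
    nlinarith
  have hJj : J ≤ 128 * j := le_trans (Nat.le_mul_of_pos_right J hr1) hJr
  have h87 : (8 / 7 : ℝ) ^ J ≤ ((8 / 7 : ℝ) ^ 128) ^ j := by
    rw [← pow_mul]
    exact pow_le_pow_right₀ (by norm_num) hJj
  have hNF0 : 0 ≤ NF M d := by unfold NF; positivity
  have hNF2 : NF M d ^ (2 * J) ≤ ((n : ℝ) ^ (δ * (256 / 20000))) ^ j := by
    calc NF M d ^ (2 * J) ≤ ((n : ℝ) ^ (δ / 20000 * r)) ^ (2 * J) := by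
          rw [hr]
          exact pow_le_pow_left₀ hNF0 hNF _
      _ = (n : ℝ) ^ (δ / 20000 * r * ((2 * J : ℕ) : ℝ)) := by
          rw [← Real.rpow_natCast, ← Real.rpow_mul hn0.le]
      _ ≤ (n : ℝ) ^ (δ * (256 / 20000) * (j : ℝ)) := by
          refine Real.rpow_le_rpow_of_exponent_le hn1 ?_
          have h4 : (J : ℝ) * r ≤ 128 * j := by exact_mod_cast hJr
          push_cast
          nlinarith
      _ = ((n : ℝ) ^ (δ * (256 / 20000))) ^ j := by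
          rw [← Real.rpow_natCast, ← Real.rpow_mul hn0.le]
  have hsum : β + (1 / (n : ℝ)) ^ j ≤ (2 * (n : ℝ) ^ (-(δ / 10))) ^ j := by
    have h5 : (1 / (n : ℝ)) ^ j ≤ ((n : ℝ) ^ (-(δ / 10))) ^ j := by
      refine pow_le_pow_left₀ (by positivity) ?_ j
      rw [one_div, ← Real.rpow_neg_one]
      exact Real.rpow_le_rpow_of_exponent_le hn1 (by linarith)
    rw [hβ, mul_pow]
    have h6 : (2 : ℝ) ≤ 2 ^ j := by
      calc (2 : ℝ) = 2 ^ 1 := by norm_num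
        _ ≤ 2 ^ j := pow_le_pow_right₀ (by norm_num) hj0
    have h7 : 0 ≤ ((n : ℝ) ^ (-(δ / 10))) ^ j := by positivity
    nlinarith
  have hfr : (0 : ℝ) ≤ Module.finrank ℂ W := by positivity
  have hX0 : (0 : ℝ) ≤ (Nat.card {w : Fin J →
        (Fin (2 * M) → Fin (a + a) × Bool) × (Fin q × Bool) //
      2 * FE δ n ≤ nfix ((bwd (wrd (lz x)) b w : Alt n) : Equiv.Perm (Fin n))} : ℝ) /
        (Fintype.card ((Fin (2 * M) → Fin (a + a) × Bool) × (Fin q × Bool)) : ℝ) ^ J := by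
    positivity
  calc (8 / 7 : ℝ) ^ J * rtr (SF (V := W) (res (repA j n) W hW.2.1) x b M d ^ J)
      ≤ (8 / 7 : ℝ) ^ J * (NF M d ^ (2 * J) * (β + (1 / (n : ℝ)) ^ j) *
          Module.finrank ℂ W) := by
        refine mul_le_mul_of_nonneg_left (key.trans ?_) (by positivity)
        refine mul_le_mul_of_nonneg_right ?_ hfr
        exact mul_le_mul_of_nonneg_left (add_le_add le_rfl hbad) (by positivity)
    _ ≤ ((8 / 7 : ℝ) ^ 128) ^ j * (((n : ℝ) ^ (δ * (256 / 20000))) ^ j *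
          (2 * (n : ℝ) ^ (-(δ / 10))) ^ j * Module.finrank ℂ W) := by
        refine mul_le_mul h87 ?_ (by positivity) (by positivity)
        refine mul_le_mul_of_nonneg_right ?_ hfr
        exact mul_le_mul hNF2 hsum (by positivity) (by positivity)
    _ = ((8 / 7 : ℝ) ^ 128 * (n : ℝ) ^ (δ * (256 / 20000)) * (2 * (n : ℝ) ^ (-(δ / 10)))) ^ j *
          Module.finrank ℂ W := by
        rw [mul_pow, mul_pow]
        ring
    _ ≤ ((n : ℝ) ^ (-(δ / 20))) ^ j * Module.finrank ℂ W :=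
        mul_le_mul_of_nonneg_right (pow_le_pow_left₀ (by positivity) hc j) hfr

end TE852
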